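import Pool.Agent.Helper70.ML.St3

set_option autoImplicit false

namespace Pool.Agent.Helper45.ML

open Pool.Agent.Helper70.ML Pool.Agent.Helper75.MX

/-- the generators -/
def gset {n : ℕ} {K : Type} (s : Fin n → Fin n → K) : Set K := {x | ∃ i j, x = s i j}

theorem swap_succ {n : ℕ} (i j k : Fin n) :
    Equiv.swap i.succ j.succ k.succ = (Equiv.swap i j k).succ :=
  Function.Injective.swap_apply (Fin.succ_injective n) i j k

theorem stepR {n : ℕ} {K : Type} [Group K] (s : Fin (n + 1) → Fin (n + 1) → K)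
    (h1 : ∀ i, s i i = 1) (h2 : ∀ i j, s i j = s j i) (h3 : ∀ i j, s i j * s i j = 1)
    (h4 : ∀ i j k l, s i j * s k l * s i j = s (Equiv.swap i j k) (Equiv.swap i j l))
    (K' : Subgroup K) (hK : ∀ k l, k ≠ 0 → l ≠ 0 → s k l ∈ K') (k l : Fin (n + 1)) (y : K)
    (hy : ∃ j, ∃ κ ∈ K', y = s 0 j * κ) : ∃ j, ∃ κ ∈ K', s k l * y = s 0 j * κ := by
  obtain ⟨j, κ, hκ, rfl⟩ := hy
  have hzero : ∀ l : Fin (n + 1), ∃ j', ∃ κ' ∈ K', s 0 l * (s 0 j * κ) = s 0 j' * κ' := by
    intro l
    by_cases hj : j = 0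
    · subst hj
      exact ⟨l, κ, hκ, by rw [h1 0, one_mul]⟩
    by_cases hjl : j = l
    · subst hjl
      exact ⟨0, κ, hκ, by rw [← mul_assoc, h3, h1 0]⟩
    by_cases hl : l = 0
    · subst hl
      exact ⟨j, κ, hκ, by rw [h1 0, one_mul]⟩
    refine ⟨j, s j l * κ, K'.mul_mem (hK j l hj hl) hκ, ?_⟩
    have h5 := h4 0 j 0 l
    rw [Equiv.swap_apply_left, Equiv.swap_apply_of_ne_of_ne hl (Ne.symm hjl)] at h5
    have h6 : s 0 l * s 0 j = s 0 j * s j l := by
      rw [← h5, ← mul_assoc, ← mul_assoc, h3, one_mul]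
    rw [← mul_assoc, h6, mul_assoc]
  by_cases hk : k = 0
  · subst hk
    exact hzero l
  by_cases hl : l = 0
  · subst hl
    rw [h2 k 0]
    exact hzero k
  refine ⟨Equiv.swap k l j, s k l * κ, K'.mul_mem (hK k l hk hl) hκ, ?_⟩
  have h5 := h4 k l 0 j
  rw [Equiv.swap_apply_of_ne_of_ne (Ne.symm hk) (Ne.symm hl)] at h5
  rw [← h5, ← mul_assoc (s k l * s 0 j * s k l), mul_assoc (s k l * s 0 j) (s k l) (s k l), h3,
    mul_one, mul_assoc]

theorem clB : ∀ (n : ℕ) (K : Type) [Group K] (s : Fin n → Fin n → K), (∀ i, s i i = 1) →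
    (∀ i j, s i j = s j i) → (∀ i j, s i j * s i j = 1) →
    (∀ i j k l, s i j * s k l * s i j = s (Equiv.swap i j k) (Equiv.swap i j l)) →
    ((Subgroup.closure (gset s) : Subgroup K) : Set K).Finite ∧
      ((Subgroup.closure (gset s) : Subgroup K) : Set K).ncard ≤ n.factorial := by
  intro n
  induction n with
  | zero =>
    intro K _ s _ _ _ _
    have h0 : gset s = ∅ := by
      ext x
      constructor
      · rintro ⟨i, _⟩
        exact i.elim0
      · rintro ⟨⟩
    rw [h0, Subgroup.closure_empty]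
    simp
  | succ n ih =>
    intro K _ s h1 h2 h3 h4
    set s' : Fin n → Fin n → K := fun i j => s i.succ j.succ with hs'
    obtain ⟨f1, f2⟩ := ih K s' (fun i => h1 _) (fun i j => h2 _ _) (fun i j => h3 _ _)
      (fun i j k l => by
        show s i.succ j.succ * s k.succ l.succ * s i.succ j.succ = _
        rw [h4, swap_succ, swap_succ])
    set K' := Subgroup.closure (gset s') with hK'
    have hK : ∀ k l : Fin (n + 1), k ≠ 0 → l ≠ 0 → s k l ∈ K' := by
      intro k l hk hl
      obtain ⟨k', rfl⟩ := Fin.exists_succ_eq.2 hk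
      obtain ⟨l', rfl⟩ := Fin.exists_succ_eq.2 hl
      exact Subgroup.subset_closure ⟨k', l', rfl⟩
    have hinv : ∀ k l, (s k l)⁻¹ = s k l := fun k l => inv_eq_of_mul_eq_one_left (h3 k l)
    have hsub : ((Subgroup.closure (gset s) : Subgroup K) : Set K) ⊆
        ⋃ j : Fin (n + 1), (fun x => s 0 j * x) '' (K' : Set K) := by
      intro x hx
      have hx' : ∃ j, ∃ κ ∈ K', x = s 0 j * κ := by
        refine Subgroup.closure_induction_left (s := gset s)
          (p := fun x _ => ∃ j, ∃ κ ∈ K', x = s 0 j * κ) ?_ ?_ ?_ hx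
        · exact ⟨0, 1, K'.one_mem, by rw [h1, one_mul]⟩
        · rintro x ⟨k, l, rfl⟩ y _ hy
          exact stepR s h1 h2 h3 h4 K' hK k l y hy
        · rintro x ⟨k, l, rfl⟩ y _ hy
          rw [hinv]
          exact stepR s h1 h2 h3 h4 K' hK k l y hy
      obtain ⟨j, κ, hκ, rfl⟩ := hx'
      exact Set.mem_iUnion.2 ⟨j, κ, hκ, rfl⟩
    have hfin : (⋃ j : Fin (n + 1), (fun x => s 0 j * x) '' (K' : Set K)).Finite :=
      Set.finite_iUnion fun j => f1.image _
    refine ⟨hfin.subset hsub, ?_⟩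
    have hc1 := Set.ncard_le_ncard hsub hfin
    have hc2 : (⋃ j : Fin (n + 1), (fun x => s 0 j * x) '' (K' : Set K)).ncard ≤
        ∑ j : Fin (n + 1), ((fun x => s 0 j * x) '' (K' : Set K)).ncard := by
      have := Set.ncard_iUnion_le_of_fintype (fun j : Fin (n + 1) => (fun x => s 0 j * x) '' (K' : Set K))
      exact this
    have hc3 : ∑ j : Fin (n + 1), ((fun x => s 0 j * x) '' (K' : Set K)).ncard ≤
        ∑ _j : Fin (n + 1), n.factorial :=
      Finset.sum_le_sum fun j _ => (Set.ncard_image_le f1).trans f2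
    rw [Finset.sum_const, Finset.card_univ, Fintype.card_fin, smul_eq_mul] at hc3
    rw [Nat.factorial_succ]
    omega

theorem hPMOO : StPMOO := by
  intro n K _ s h1 h2 h3 h4
  set t : Fin n → Fin n → K × Equiv.Perm (Fin n) := fun i j => (s i j, Equiv.swap i j) with ht
  obtain ⟨f1, f2⟩ := clB n (K × Equiv.Perm (Fin n)) t
    (fun i => by
      show (s i i, Equiv.swap i i) = 1
      rw [h1, Equiv.swap_self]
      rfl)
    (fun i j => by
      show (s i j, Equiv.swap i j) = (s j i, Equiv.swap j i)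
      rw [h2, Equiv.swap_comm])
    (fun i j => by
      show (s i j * s i j, Equiv.swap i j * Equiv.swap i j) = 1
      rw [h3, Equiv.swap_mul_self]
      rfl)
    (fun i j k l => by
      show (s i j * s k l * s i j, Equiv.swap i j * Equiv.swap k l * Equiv.swap i j) =
        (s (Equiv.swap i j k) (Equiv.swap i j l), Equiv.swap (Equiv.swap i j k) (Equiv.swap i j l))
      rw [h4, Equiv.swap_apply_apply (Equiv.swap i j) k l, Equiv.swap_inv])
  set Γ : Subgroup (K × Equiv.Perm (Fin n)) := Subgroup.closure (gset t) with hΓ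
  have tm : ∀ i j, t i j ∈ Γ := fun i j => Subgroup.subset_closure ⟨i, j, rfl⟩
  set p : Γ →* Equiv.Perm (Fin n) := (MonoidHom.snd K (Equiv.Perm (Fin n))).comp Γ.subtype with hp
  have psurj : Function.Surjective p := by
    rw [← MonoidHom.range_eq_top, eq_top_iff, ← Equiv.Perm.closure_isSwap,
      Subgroup.closure_le]
    rintro σ ⟨i, j, _, rfl⟩
    exact ⟨⟨t i j, tm i j⟩, rfl⟩
  haveI : Finite Γ := f1.to_subtype
  have hcard : Nat.card Γ ≤ Nat.card (Equiv.Perm (Fin n)) := by
    have e1 : Nat.card Γ = (Γ : Set (K × Equiv.Perm (Fin n))).ncard := rfl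
    have e2 : Nat.card (Equiv.Perm (Fin n)) = n.factorial := by
      rw [Nat.card_eq_fintype_card, Fintype.card_perm, Fintype.card_fin]
    rw [e1, e2]
    exact f2
  have pb : Function.Bijective p := psurj.bijective_of_nat_card_le hcard
  set q := MulEquiv.ofBijective p pb with hq
  refine ⟨(MonoidHom.fst K (Equiv.Perm (Fin n))).comp (Γ.subtype.comp q.symm.toMonoidHom), ?_⟩
  intro i j
  have e : q.symm (Equiv.swap i j) = ⟨t i j, tm i j⟩ := by
    rw [MulEquiv.symm_apply_eq]
    rfl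
  show (q.symm (Equiv.swap i j) : K × Equiv.Perm (Fin n)).1 = s i j
  rw [e]

end Pool.Agent.Helper45.ML
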